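import Pool.Agent.TH703.HU.Stm
import Pool.Agent.TH89.MI.Tr

/-!
# Project HU, job 4309 (B9): rescaling of the perimeter

The lemmas on the linear scaling `sc ε` (determinant, conjugation of fields) are those of
helper89 for project MI; they hold for an arbitrary open set.
-/

set_option autoImplicit false

open MeasureTheory Set Metric Filter Topology
open scoped ENNReal Real

noncomputable section

namespace Pool.Agent.TH859.HU

open Pool.Agent.TH304.MI Pool.Agent.TH703.HU Pool.Agent.TH89.MI

theorem b9 : S_B9 := by
  intro b Ω ε h _ E hE _ C
  have hpos : 0 < ε ^ b := by positivity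
  constructor
  · intro hP ψ hψ
    have h1 := hP _ (fld_pull h hψ)
    have h2 := int_conj (scE b ε h) (fun y => (scE b ε h).symm (ψ ((scE b ε h) y))) E hE
    rw [det_scE h] at h2
    simp only [ContinuousLinearEquiv.apply_symm_apply] at h2
    rw [image_sc h, h2]
    exact mul_le_mul_of_nonneg_left h1 hpos.le
  · intro hP φ hφ
    have h1 := hP _ (fld_push h hφ)
    rw [image_sc h, int_conj (scE b ε h) φ E hE, det_scE h] at h1
    exact le_of_mul_le_mul_left h1 hpos

end Pool.Agent.TH859.HU
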